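import Mathlib
import Pool.Agent.KS7_39.D49.EX5

set_option autoImplicit false

namespace Pool.Agent.Results.MP_49bdf6_an.ExplicitConstants

open Pool.Agent.KS7_39.D49

variable {𝕜 : Type} [RCLike 𝕜] {E : Type} [NormedAddCommGroup E] [NormedSpace 𝕜 E]

/-- The closed linear span of a set. -/
noncomputable abbrev closedSpan (𝕜 : Type) [RCLike 𝕜] {E : Type} [NormedAddCommGroup E]
    [NormedSpace 𝕜 E] (S : Set E) : Submodule 𝕜 E := (Submodule.span 𝕜 S).topologicalClosure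

/-- The vectors `x n`, `y i` together are complete in `E`, and biorthogonal to the functionals
`F n`, `W i`. -/
structure IsCompleteExtension {ι : Type} (x : ℕ → E) (y : ι → E) (F : ℕ → E →L[𝕜] 𝕜)
    (W : ι → E →L[𝕜] 𝕜) : Prop where
  fx : ∀ n m, F n (x m) = if n = m then 1 else 0
  fy : ∀ n j, F n (y j) = 0
  wx : ∀ i m, W i (x m) = 0
  wy : ∀ i j, (i = j → W i (y j) = 1) ∧ (i ≠ j → W i (y j) = 0)
  complete : closedSpan 𝕜 (Set.range x ∪ Set.range y) = ⊤

/-- **Extension of strictly bounded minimal sequences with explicit constants.** Let `E` be a normed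
space over `ℝ` or `ℂ` (not necessarily complete), `x n` a sequence with `‖x n‖ ≤ C` and biorthogonal
functionals `f n`, `‖f n‖ ≤ D`.

1. If the closed span of the `x n` has finite codimension `r` in `E`, there are `r` vectors `y i`
with `‖y i‖ ≤ 2` such that the `x n` and `y i` together are complete and minimal, with biorthogonal
functionals `F n`, `W i` satisfying `‖F n‖ ≤ (2 r + 1) D` and `‖W i‖ ≤ 1`.
2. If the codimension is infinite and `E` is separable, there are countably many vectors `y i` with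
`‖y i‖ ≤ 12` such that the `x n` and `y i` together are complete and minimal, with biorthogonal
functionals `F n`, `W i` satisfying `‖F n‖ ≤ 20 D + 2` and `‖W i‖ ≤ 12`. -/
theorem result (x : ℕ → E) (f : ℕ → E →L[𝕜] 𝕜) (C D : ℝ)
    (hf : ∀ i j, f i (x j) = if i = j then 1 else 0) (hC : ∀ n, ‖x n‖ ≤ C) (hD : ∀ n, ‖f n‖ ≤ D) :
    (∀ r : ℕ, FiniteDimensional 𝕜 (E ⧸ closedSpan 𝕜 (Set.range x)) →
      Module.finrank 𝕜 (E ⧸ closedSpan 𝕜 (Set.range x)) = r →
      ∃ (y : Fin r → E) (F : ℕ → E →L[𝕜] 𝕜) (W : Fin r → E →L[𝕜] 𝕜),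
        IsCompleteExtension x y F W ∧ (∀ i, ‖y i‖ ≤ 2 ∧ ‖W i‖ ≤ 1) ∧
        ∀ n, ‖F n‖ ≤ (2 * r + 1) * D) ∧
    (¬ FiniteDimensional 𝕜 (E ⧸ closedSpan 𝕜 (Set.range x)) →
      TopologicalSpace.SeparableSpace E →
      ∃ (ι : Type) (_ : Countable ι) (y : ι → E) (F : ℕ → E →L[𝕜] 𝕜) (W : ι → E →L[𝕜] 𝕜),
        IsCompleteExtension x y F W ∧ (∀ i, ‖y i‖ ≤ 12 ∧ ‖W i‖ ≤ 12) ∧
        ∀ n, ‖F n‖ ≤ 20 * D + 2) := by
  constructor
  · rintro r hfin rfl
    obtain ⟨y, F, W, h1, h2, h3, h4, h5, h6, h7⟩ := main_fin x hfin f hf D hD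
    exact ⟨y, F, W, ⟨h1, h2, h3, h4, h7⟩, h5, h6⟩
  · intro hinf hsep
    obtain ⟨ι, hι, y, F, W, h1, h2, h3, h4, h5, h6, h7⟩ := main_inf x C hC hinf f hf D hD
    exact ⟨ι, hι, y, F, W, ⟨h1, h2, h3, h4, h7⟩, h5, h6⟩

end Pool.Agent.Results.MP_49bdf6_an.ExplicitConstants
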